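import Pool.Agent.Helper14.TT.StU
import Pool.Agent.Helper38.CV.M_Far
import Pool.Agent.Helper38.CV.M_PlA
import Pool.Agent.Helper7.CV.M_PlU
import Pool.Agent.Helper98.CV.M_Edg

/-!
# Project TT: module O1S (odd exponent with signs; model: Pool/Agent/Helper15/CV/M_O1.lean)
-/

set_option autoImplicit false

namespace Pool.Agent.Helper29.TT

open Pool.Agent.Helper14.TT Pool.Agent.Helper14.CV
open Pool.Agent.Helper76.TX (BalOS antiOS Sg)

private lemma two_pow_z (k : ℕ) : (2 : ZMod (2 ^ k)) ^ k = 0 := by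
  have := ZMod.natCast_self (2 ^ k)
  push_cast at this
  exact this

private lemma unit12 (k : ℕ) (y : ZMod (2 ^ k)) : IsUnit (1 + 2 * y) := by
  have h : IsNilpotent (2 * y) := ⟨k, by rw [mul_pow, two_pow_z, zero_mul]⟩
  exact h.isUnit_one_add

private lemma inv12 (k : ℕ) (y : ZMod (2 ^ k)) : (1 + 2 * y)⁻¹ * (1 + 2 * y) = 1 :=
  ZMod.inv_mul_of_unit _ (unit12 k y)

private lemma half_even {k : ℕ} (hk : 1 ≤ k) {m : ℤ} (hm : Even m) :
    (2 : ZMod (2 ^ k)) ^ (k - 1) * (m : ZMod (2 ^ k)) = 0 := by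
  obtain ⟨j, hj⟩ := hm
  have e : (2 : ZMod (2 ^ k)) ^ (k - 1) * (m : ZMod (2 ^ k)) = (2 : ZMod (2 ^ k)) ^ k * (j : ZMod (2 ^ k)) := by
    have h1 : (2 : ZMod (2 ^ k)) ^ k = 2 ^ (k - 1) * 2 := by
      rw [← pow_succ]
      congr 1
      omega
    rw [h1, hj]
    push_cast
    ring
  rw [e, two_pow_z, zero_mul]

/-- parity of the diagonal -/
private lemma diag_even {a b c d : ℤ} (h : a * d - 2 ^ (0 + 1) * b * c = 1) : Even (d - a) := by
  have h1 : Odd (a * d) := ⟨b * c, by linear_combination h⟩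
  obtain ⟨ha, hd⟩ := Int.odd_mul.1 h1
  exact hd.sub_odd ha

private lemma odd_unit {k : ℕ} {a : ℤ} (ha : Odd a) : IsUnit ((a : ℤ) : ZMod (2 ^ k)) := by
  obtain ⟨j, hj⟩ := ha
  have h := unit12 k (j : ZMod (2 ^ k))
  rw [hj]
  push_cast
  rwa [add_comm] at h

private lemma sg_sq {w : ℤ} (h : Sg w) : ((w : ℤ) : ℂ) * (w : ℂ) = 1 := by
  rcases h with h | h <;> rw [h] <;> norm_num

/-- O1S with the four statements of CV as hypotheses. -/
theorem hO1S' (hPlA : StPlA) (_hPlU : StPlU) (hEdg : StEdg) (hFar : StFar) : O1S := by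
  intro w ε k G hw hε hk hG
  obtain ⟨hS, hP1, hP2, hW, hst⟩ := hG
  have hom := hS.1
  have val : ∀ (x y : ZMod (2 ^ k)) (a b c d : ℤ), Pl 0 a b c d x y →
      edgeF 0 1 0 0 1 G x y = G a (2 * c) - G b d := by
    intro x y a b c d h
    have := hEdg ℂ inferInstance 0 k k G hS 1 0 0 1 (Or.inl one_ne_zero) (Or.inr one_ne_zero) x y a b c d h
    simpa using this
  have exP : ∀ x y : ZMod (2 ^ k), ∃ a b c d : ℤ, Pl 0 a b c d x y := fun x y =>
    ⟨_, _, _, _, hPlA 0 k k x y⟩
  have z := two_pow_z k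
  -- the four symmetries
  have s4 : ∀ x y : ZMod (2 ^ k), edgeF 0 1 0 0 1 G (-x) (-y) =
      (ε : ℂ) * edgeF 0 1 0 0 1 G x y := by
    intro x y
    obtain ⟨a, b, c, d, h⟩ := exP x y
    have h' : Pl 0 a (-b) (-c) d (-x) (-y) := by
      obtain ⟨h1, h2, h3⟩ := h
      refine ⟨by linear_combination h1, ?_, ?_⟩
      · push_cast
        rw [h2]
        ring
      · push_cast
        rw [h3]
        ring
    rw [val _ _ _ _ _ _ h, val _ _ _ _ _ _ h']
    obtain ⟨h1, -, -⟩ := h
    have n1 : a ≠ 0 ∨ 2 * c ≠ 0 := by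
      by_contra hc
      push Not at hc
      rw [hc.1] at h1
      have : 2 ^ (0 + 1) * b * c = b * (2 * c) := by ring
      rw [this, hc.2] at h1
      norm_num at h1
    have n2 : b ≠ 0 ∨ d ≠ 0 := by
      by_contra hc
      push Not at hc
      rw [hc.1, hc.2] at h1
      norm_num at h1
    have e := hst.diff n1 n2
    unfold act at e
    have e1 : G a (2 * -c) = G (-1 * a + 0 * (2 * c)) (0 * a + 1 * (2 * c)) := by
      have := hom (-1) a (2 * -c) (by norm_num) (by
        rcases n1 with h | h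
        · exact Or.inl h
        · right
          intro h'
          apply h
          linarith)
      rw [← this]
      congr 1 <;> ring
    have e2 : G (-b) d = G (-1 * b + 0 * d) (0 * b + 1 * d) := by
      congr 1 <;> ring
    rw [e1, e2, e]
    simp only [Pi.smul_apply]
    simp only [zsmul_eq_mul]
    ring
  have sW : ∀ x y : ZMod (2 ^ k), edgeF 0 1 0 0 1 G (-y) (-x) =
      (w : ℂ) * edgeF 0 1 0 0 1 G x y := by
    intro x y
    obtain ⟨a, b, c, d, h⟩ := exP x y
    have h' : Pl 0 d (-c) (-b) a (-y) (-x) := by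
      obtain ⟨h1, h2, h3⟩ := h
      refine ⟨by linarith, ?_, ?_⟩
      · push_cast
        rw [h3]
        ring
      · push_cast
        rw [h2]
        ring
    rw [val _ _ _ _ _ _ h, val _ _ _ _ _ _ h']
    obtain ⟨h1, -, -⟩ := h
    have n1 : a ≠ 0 ∨ 2 * c ≠ 0 := by
      by_contra hc
      push Not at hc
      rw [hc.1] at h1
      have : 2 ^ (0 + 1) * b * c = b * (2 * c) := by ring
      rw [this, hc.2] at h1
      norm_num at h1
    have n2 : b ≠ 0 ∨ d ≠ 0 := by
      by_contra hc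
      push Not at hc
      rw [hc.1, hc.2] at h1
      norm_num at h1
    have e := hW.diff n2 n1
    unfold act at e
    have e1 : G d (2 * -b) = G (0 * b + -1 * d) (2 * b + 0 * d) := by
      have := hom (-1) d (2 * -b) (by norm_num) (by
        rcases n2 with h | h
        · right
          intro h'
          apply h
          linarith
        · exact Or.inl h)
      rw [← this]
      congr 1 <;> ring
    have e2 : G (-c) a = G (0 * a + -1 * (2 * c)) (2 * a + 0 * (2 * c)) := by
      have := hom 2 (-c) a (by norm_num) (by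
        rcases n1 with h | h
        · exact Or.inr h
        · left
          intro h'
          apply h
          linarith)
      rw [← this]
      congr 1 <;> ring
    rw [e1, e2, e]
    simp only [Pi.neg_apply, Pi.smul_apply]
    simp only [zsmul_eq_mul]
    ring
  have s3 : ∀ x y : ZMod (2 ^ k), edgeF 0 1 0 0 1 G y x =
      ((w * ε : ℤ) : ℂ) * edgeF 0 1 0 0 1 G x y := by
    intro x y
    have h1 := s4 y x
    rw [sW] at h1
    push_cast
    linear_combination (-(ε : ℂ)) * h1 - (edgeF 0 1 0 0 1 G y x) * sg_sq hε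
  have s1 : ∀ x y : ZMod (2 ^ k), edgeF 0 1 0 0 1 G (x + 2 ^ (k - 1)) y = -edgeF 0 1 0 0 1 G x y := by
    intro x y
    obtain ⟨a, b, c, d, h⟩ := exP x y
    have h' : Pl 0 (a + 2 ^ (k - 1) * (2 * c)) (b + 2 ^ (k - 1) * d) c d (x + 2 ^ (k - 1)) y := by
      obtain ⟨h1, h2, h3⟩ := h
      have he := half_even hk (diag_even h1)
      have he2 : (2 : ZMod (2 ^ k)) ^ (k - 1) * ((2 * c : ℤ) : ZMod (2 ^ k)) = 0 :=
        half_even hk (even_two_mul c)
      refine ⟨by linear_combination h1, ?_, h3⟩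
      push_cast at he he2 ⊢
      rw [h2]
      linear_combination he - (x + 2 ^ (k - 1)) * he2
    rw [val _ _ _ _ _ _ h, val _ _ _ _ _ _ h']
    obtain ⟨h1, -, -⟩ := h
    have n1 : a ≠ 0 ∨ 2 * c ≠ 0 := by
      by_contra hc
      push Not at hc
      rw [hc.1] at h1
      have : 2 ^ (0 + 1) * b * c = b * (2 * c) := by ring
      rw [this, hc.2] at h1
      norm_num at h1
    have n2 : b ≠ 0 ∨ d ≠ 0 := by
      by_contra hc
      push Not at hc
      rw [hc.1, hc.2] at h1
      norm_num at h1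
    have e := hP1.diff n1 n2
    unfold act at e
    have e1 : G (a + 2 ^ (k - 1) * (2 * c)) (2 * c) =
        G (1 * a + 2 ^ (k - 1) * (2 * c)) (0 * a + 1 * (2 * c)) := by
      congr 1 <;> ring
    have e2 : G (b + 2 ^ (k - 1) * d) d = G (1 * b + 2 ^ (k - 1) * d) (0 * b + 1 * d) := by
      congr 1 <;> ring
    rw [e1, e2, e]
    simp only [Pi.neg_apply]
    ring
  have s2 : ∀ x y : ZMod (2 ^ k), edgeF 0 1 0 0 1 G x (y + 2 ^ (k - 1)) = -edgeF 0 1 0 0 1 G x y := by
    intro x y
    rw [s3 (y + 2 ^ (k - 1)) x, s1, s3 x y]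
    push_cast
    linear_combination (-(edgeF 0 1 0 0 1 G x y) * ((ε : ℂ) * ε)) * sg_sq hw
      - (edgeF 0 1 0 0 1 G x y) * sg_sq hε
  refine ⟨fun x y => ⟨s1 x y, s2 x y, s3 x y, s4 x y⟩, ?_, ?_⟩
  · funext x y
    obtain ⟨a, b, c, d, h⟩ := exP x y
    obtain ⟨h1, h2, h3⟩ := h
    have ix := inv12 k x
    have iy := inv12 k y
    have hT : Pl 0 a (a + b) c (2 * c + d) (x + 1) (y * (1 + 2 * y)⁻¹) := by
      refine ⟨by linear_combination h1, ?_, ?_⟩
      · push_cast
        rw [h2]
        ring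
      · push_cast
        rw [h3]
        linear_combination (-(y * (d : ZMod (2 ^ k)))) * iy
    have hV : Pl 0 (a + 2 * b) (-(a + b)) (c + d) (-(2 * c + d)) (vv x) (vv y) := by
      unfold vv
      refine ⟨by linear_combination h1, ?_, ?_⟩
      · push_cast
        rw [h2]
        linear_combination ((1 + x) * (a : ZMod (2 ^ k))) * ix
      · push_cast
        rw [h3]
        linear_combination (-((1 + y) * (d : ZMod (2 ^ k)))) * iy
    have hVT : Pl 0 (a + 2 * b) b (c + d) d (x * (1 + 2 * x)⁻¹) (y + 1) := by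
      refine ⟨by linear_combination h1, ?_, ?_⟩
      · push_cast
        rw [h2]
        linear_combination (-(x * (a : ZMod (2 ^ k)))) * ix
      · push_cast
        rw [h3]
        ring
    change edgeF 0 1 0 0 1 G (x + 1) (y * (1 + 2 * y)⁻¹) + edgeF 0 1 0 0 1 G (x * (1 + 2 * x)⁻¹) (y + 1)
      - edgeF 0 1 0 0 1 G x y - edgeF 0 1 0 0 1 G (vv x) (vv y) = 0
    rw [val _ _ _ _ _ _ hT, val _ _ _ _ _ _ hV, val _ _ _ _ _ _ hVT, val _ _ _ _ _ _ ⟨h1, h2, h3⟩]
    have e1 : G (-(a + b)) (-(2 * c + d)) = G (a + b) (2 * c + d) := by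
      have hne : a + b ≠ 0 ∨ 2 * c + d ≠ 0 := by
        by_contra hc
        push Not at hc
        have : a * d - 2 ^ (0 + 1) * b * c = a * (2 * c + d) - 2 * c * (a + b) := by ring
        rw [this, hc.1, hc.2] at h1
        norm_num at h1
      have := hom (-1) (a + b) (2 * c + d) (by norm_num) hne
      rw [← this]
      congr 1 <;> ring
    rw [e1]
    ring
  · intro h0
    have key : ∀ a b c d : ℤ, a * d - 2 * b * c = 1 → G a (2 * c) = G b d := by
      intro a b c d h
      have hodd : Odd (a * d) := ⟨b * c, by linarith⟩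
      obtain ⟨ha, hd⟩ := Int.odd_mul.1 hodd
      have ua := ZMod.inv_mul_of_unit _ (odd_unit (k := k) ha)
      have ud := ZMod.inv_mul_of_unit _ (odd_unit (k := k) hd)
      have hp : Pl 0 a b c d ((b : ZMod (2 ^ k)) * ((a : ZMod (2 ^ k)))⁻¹)
          ((c : ZMod (2 ^ k)) * ((d : ZMod (2 ^ k)))⁻¹) := by
        refine ⟨by linear_combination h, ?_, ?_⟩
        · rw [mul_assoc, ua, mul_one]
        · rw [mul_assoc, ud, mul_one]
      have e := val _ _ _ _ _ _ hp
      rw [h0] at e
      exact (sub_eq_zero.1 e.symm)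
    apply hFar ℂ inferInstance G hom
    intro a b c d h
    have neg : ∀ p q : ℤ, (p ≠ 0 ∨ q ≠ 0) → G (-p) (-q) = G p q := by
      intro p q hpq
      have := hom (-1) p q (by norm_num) hpq
      rw [← this]
      congr 1 <;> ring
    have hac : a ≠ 0 ∨ c ≠ 0 := by
      by_contra hc
      push Not at hc
      rw [hc.1, hc.2] at h
      norm_num at h
    rcases Int.even_or_odd c with hc | hc
    · obtain ⟨c', rfl⟩ := hc
      have := key a b c' d (by linear_combination h)
      rw [show c' + c' = 2 * c' by ring]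
      exact this
    · rcases Int.even_or_odd d with hd | hd
      · obtain ⟨d', rfl⟩ := hd
        have := key b (-a) d' (-c) (by linear_combination h)
        rw [show d' + d' = 2 * d' by ring, this, neg a c hac]
      · obtain ⟨e', he'⟩ := hc.add_odd hd
        have k1 := key (a + b) b e' d (by linear_combination h + b * he')
        have k2 := key (a + b) (-a) e' (-c) (by linear_combination h - a * he')
        rw [← k1, k2, neg a c hac]

/-- O1S. -/
theorem hO1S : O1S :=
  hO1S' Pool.Agent.Helper38.CV.hPlA Pool.Agent.Helper7.CV.hPlU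
    (Pool.Agent.Helper98.CV.hEdg Pool.Agent.Helper38.CV.hPlA Pool.Agent.Helper7.CV.hPlU)
    Pool.Agent.Helper38.CV.hFar

end Pool.Agent.Helper29.TT
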